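import Pool.Agent.H58.FN.Targets

/-!
# MP_6a7a6f_gt, FN: certificates for finite configurations of points
-/

set_option autoImplicit false
set_option maxRecDepth 100000

namespace Pool.Agent.H14.FN

open Pool.Agent.H58.FN

/-! ## alternating functions -/

/-- alternating functions of four arguments -/
structure Alt4 {α : Type} (F : α → α → α → α → ℤ) : Prop where
  s1 : ∀ a b c d, F b a c d = -F a b c d
  s2 : ∀ a b c d, F a c b d = -F a b c d
  s3 : ∀ a b c d, F a b d c = -F a b c d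

theorem sort4 {α : Type} [LinearOrder α] (P : α → α → α → α → Prop)
    (s1 : ∀ i j k l, P i j k l → P j i k l) (s2 : ∀ i j k l, P i j k l → P i k j l)
    (s3 : ∀ i j k l, P i j k l → P i j l k)
    (h : ∀ i j k l, i ≤ j → j ≤ k → k ≤ l → P i j k l) : ∀ i j k l, P i j k l := by
  have hA : ∀ i j k l, i ≤ j → j ≤ k → P i j k l := by
    intro i j k l h1 h2
    rcases le_total k l with h3 | h3
    · exact h _ _ _ _ h1 h2 h3
    · apply s3
      rcases le_total j l with h4 | h4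
      · exact h _ _ _ _ h1 h4 h3
      · apply s2
        rcases le_total i l with h5 | h5
        · exact h _ _ _ _ h5 h4 h2
        · apply s1
          exact h _ _ _ _ h5 h1 h2
  have hB : ∀ i j k l, i ≤ j → P i j k l := by
    intro i j k l h1
    rcases le_total j k with h2 | h2
    · exact hA _ _ _ _ h1 h2
    · apply s2
      rcases le_total i k with h3 | h3
      · exact hA _ _ _ _ h3 h2
      · apply s1
        exact hA _ _ _ _ h3 h1
  intro i j k l
  rcases le_total i j with h1 | h1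
  · exact hB _ _ _ _ h1
  · apply s1
    exact hB _ _ _ _ h1

/-- two alternating functions which agree on the increasing quadruples (with a condition which does
not depend on the order) are equal -/
theorem alt_ext {α : Type} [LinearOrder α] (Q : α → Prop) (f g : α → α → α → α → ℤ)
    (f1 : ∀ a b c d, Q a → Q b → Q c → Q d → f b a c d = -f a b c d ∧ f a c b d = -f a b c d ∧
      f a b d c = -f a b c d)
    (g1 : ∀ a b c d, Q a → Q b → Q c → Q d → g b a c d = -g a b c d ∧ g a c b d = -g a b c d ∧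
      g a b d c = -g a b c d)
    (h : ∀ a b c d, Q a → Q b → Q c → Q d → a < b → b < c → c < d → f a b c d = g a b c d) :
    ∀ a b c d, Q a → Q b → Q c → Q d → f a b c d = g a b c d := by
  refine sort4 (fun a b c d => Q a → Q b → Q c → Q d → f a b c d = g a b c d) ?_ ?_ ?_ ?_
  · intro i j k l hP hj hi hk hl
    rw [(f1 i j k l hi hj hk hl).1, (g1 i j k l hi hj hk hl).1, hP hi hj hk hl]
  · intro i j k l hP hi hk hj hl
    rw [(f1 i j k l hi hj hk hl).2.1, (g1 i j k l hi hj hk hl).2.1, hP hi hj hk hl]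
  · intro i j k l hP hi hj hl hk
    rw [(f1 i j k l hi hj hk hl).2.2, (g1 i j k l hi hj hk hl).2.2, hP hi hj hk hl]
  · intro i j k l h1 h2 h3 hi hj hk hl
    rcases eq_or_lt_of_le h1 with h4 | h4
    · subst h4
      have e1 := (f1 i i k l hi hi hk hl).1
      have e2 := (g1 i i k l hi hi hk hl).1
      omega
    rcases eq_or_lt_of_le h2 with h5 | h5
    · subst h5
      have e1 := (f1 i j j l hi hj hj hl).2.1
      have e2 := (g1 i j j l hi hj hj hl).2.1
      omega
    rcases eq_or_lt_of_le h3 with h6 | h6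
    · subst h6
      have e1 := (f1 i j k k hi hj hk hk).2.2
      have e2 := (g1 i j k k hi hj hk hk).2.2
      omega
    exact h _ _ _ _ hi hj hk hl h4 h5 h6

/-! ## the patterns are alternating -/

theorem tau_alt5 (a b c : ℕ) : tau 5 b a c = -tau 5 a b c ∧ tau 5 a c b = -tau 5 a b c := by
  by_cases h : a < 5 ∧ b < 5 ∧ c < 5
  · obtain ⟨ha, hb, hc⟩ := h
    have key : ∀ a b c : Fin 5, tau 5 b a c = -tau 5 a b c ∧ tau 5 a c b = -tau 5 a b c := by
      decide +kernel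
    exact key ⟨a, ha⟩ ⟨b, hb⟩ ⟨c, hc⟩
  · have h1 : tau 5 a b c = 0 := by unfold tau; rw [if_neg h]
    have h2 : tau 5 b a c = 0 := by unfold tau; rw [if_neg (by tauto)]
    have h3 : tau 5 a c b = 0 := by unfold tau; rw [if_neg (by tauto)]
    rw [h1, h2, h3]
    exact ⟨rfl, rfl⟩

theorem tau_alt7 (a b c : ℕ) : tau 7 b a c = -tau 7 a b c ∧ tau 7 a c b = -tau 7 a b c := by
  by_cases h : a < 7 ∧ b < 7 ∧ c < 7
  · obtain ⟨ha, hb, hc⟩ := h
    have key : ∀ a b c : Fin 7, tau 7 b a c = -tau 7 a b c ∧ tau 7 a c b = -tau 7 a b c := by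
      decide +kernel
    exact key ⟨a, ha⟩ ⟨b, hb⟩ ⟨c, hc⟩
  · have h1 : tau 7 a b c = 0 := by unfold tau; rw [if_neg h]
    have h2 : tau 7 b a c = 0 := by unfold tau; rw [if_neg (by tauto)]
    have h3 : tau 7 a c b = 0 := by unfold tau; rw [if_neg (by tauto)]
    rw [h1, h2, h3]
    exact ⟨rfl, rfl⟩

theorem pyr_alt {N : ℕ} (h : ∀ a b c, tau N b a c = -tau N a b c ∧ tau N a c b = -tau N a b c) :
    Alt4 (pyr N) := by
  refine ⟨fun a b c d => ?_, fun a b c d => ?_, fun a b c d => ?_⟩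
  · unfold pyr
    rw [(h a b d).1, (h a b c).1]
    split_ifs <;> omega
  · unfold pyr
    rw [(h b c d).1, (h a b c).2]
    split_ifs <;> omega
  · unfold pyr
    rw [(h b c d).2, (h a c d).2]
    split_ifs <;> omega

theorem pyr5_alt : Alt4 (pyr 5) := pyr_alt tau_alt5

theorem hep_alt : Alt4 hep := by
  have h := pyr_alt tau_alt7
  exact ⟨fun a b c d => h.s1 _ _ _ _, fun a b c d => h.s2 _ _ _ _, fun a b c d => h.s3 _ _ _ _⟩

theorem x7_alt : Alt4 x7 := by
  refine ⟨?_, ?_, ?_⟩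
  · decide +kernel
  · have : ∀ a b c d : Fin 7, x7 a c b d = -x7 a b c d := by decide +kernel
    exact this
  · have : ∀ a b c d : Fin 7, x7 a b d c = -x7 a b c d := by decide +kernel
    exact this

/-- the value of the labelled pattern with a correction -/
def Fm (lab : ℕ → ℕ) (g : ℕ → ℕ → ℕ → ℤ) (a b c d : ℕ) : ℤ :=
  pyr 5 (lab a) (lab b) (lab c) (lab d) + (g b c d - g a c d + g a b d - g a b c)

theorem Fm_alt {lab : ℕ → ℕ} {g : ℕ → ℕ → ℕ → ℤ}
    (hg : ∀ a b c, g b a c = -g a b c ∧ g a c b = -g a b c) : Alt4 (Fm lab g) := by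
  refine ⟨fun a b c d => ?_, fun a b c d => ?_, fun a b c d => ?_⟩
  · unfold Fm
    rw [pyr5_alt.s1, (hg a b d).1, (hg a b c).1]
    ring
  · unfold Fm
    rw [pyr5_alt.s2, (hg b c d).1, (hg a b c).2]
    ring
  · unfold Fm
    rw [pyr5_alt.s3, (hg b c d).2, (hg a c d).2]
    ring

/-! ## representations of configurations -/

variable {X : Type}

/-- the monopole numbers of the points `q 0, ..., q (n - 1)` are given by `F` -/
structure Rp (S : Set X) (m : X → X → X → X → ℤ) (n : ℕ) (q : ℕ → X)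
    (F : ℕ → ℕ → ℕ → ℕ → ℤ) : Prop where
  qS : ∀ i, q i ∈ S
  alt : Alt4 F
  eq : ∀ a b c d, a < n → b < n → c < n → d < n → m (q a) (q b) (q c) (q d) = F a b c d

theorem Rp.of_lt {S : Set X} {m : X → X → X → X → ℤ} (hM : Mo S m) {n : ℕ} {q : ℕ → X}
    {F : ℕ → ℕ → ℕ → ℕ → ℤ} (hq : ∀ i, q i ∈ S) (hF : Alt4 F)
    (h : ∀ a b c d, a < n → b < n → c < n → d < n → a < b → b < c → c < d →
      m (q a) (q b) (q c) (q d) = F a b c d) : Rp S m n q F := by
  refine ⟨hq, hF, ?_⟩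
  refine alt_ext (fun i => i < n) (fun a b c d => m (q a) (q b) (q c) (q d)) F ?_ ?_ h
  · intro a b c d _ _ _ _
    obtain ⟨h1, h2, h3, -⟩ := hM.alt (q a) (hq a) (q b) (hq b) (q c) (hq c) (q d) (hq d)
    exact ⟨h1, h2, h3⟩
  · intro a b c d _ _ _ _
    exact ⟨hF.s1 _ _ _ _, hF.s2 _ _ _ _, hF.s3 _ _ _ _⟩

/-- the entries of a list -/
def wt (w : List ℕ) (i : ℕ) : ℕ := w.getD i 0

/-- all entries are less than `n` -/
def wf (n : ℕ) (w : List ℕ) : Bool := w.all (fun a => decide (a < n))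

theorem wt_lt {n : ℕ} (hn : 0 < n) {w : List ℕ} (h : wf n w = true) (i : ℕ) : wt w i < n := by
  unfold wf at h
  rw [List.all_eq_true] at h
  unfold wt
  by_cases hi : i < w.length
  · rw [List.getD_eq_getElem _ _ hi]
    exact of_decide_eq_true (h _ (List.getElem_mem hi))
  · rw [List.getD_eq_default _ _ (by omega)]
    exact hn

/-- the certificate of a hexagon -/
def chkHex (F : ℕ → ℕ → ℕ → ℕ → ℤ) (w : List ℕ) : Bool :=
  (F (wt w 0) (wt w 1) (wt w 2) (wt w 3) != 0) && ((F (wt w 1) (wt w 2) (wt w 3) (wt w 4) != 0) &&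
  ((F (wt w 2) (wt w 3) (wt w 4) (wt w 5) != 0) && ((F (wt w 3) (wt w 4) (wt w 5) (wt w 0) != 0) &&
  ((F (wt w 4) (wt w 5) (wt w 0) (wt w 1) != 0) && (F (wt w 5) (wt w 0) (wt w 1) (wt w 2) != 0)))))

/-- the certificate of two triangles -/
def chkTtt (F : ℕ → ℕ → ℕ → ℕ → ℤ) (w : List ℕ) : Bool :=
  (F (wt w 0) (wt w 1) (wt w 2) (wt w 3) != 0) && ((F (wt w 0) (wt w 1) (wt w 2) (wt w 4) != 0) &&
  ((F (wt w 0) (wt w 1) (wt w 2) (wt w 5) != 0) && ((F (wt w 0) (wt w 3) (wt w 4) (wt w 5) != 0) &&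
  ((F (wt w 1) (wt w 3) (wt w 4) (wt w 5) != 0) && (F (wt w 2) (wt w 3) (wt w 4) (wt w 5) != 0)))))

/-- the certificate of the exceptional configuration -/
def chkX7 (F : ℕ → ℕ → ℕ → ℕ → ℤ) (w : List ℕ) : Bool :=
  decide (∀ i j : Fin 7, i < j → ∀ k : Fin 7, j < k → ∀ l : Fin 7, k < l →
    F (wt w i) (wt w j) (wt w k) (wt w l) = x7 i j k l)

/-- the certificate of a heptagonal pyramid -/
def chkHp (F : ℕ → ℕ → ℕ → ℕ → ℤ) (w : List ℕ) : Bool :=
  decide (∀ i j : Fin 8, i < j → ∀ k : Fin 8, j < k → ∀ l : Fin 8, k < l →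
    F (wt w i) (wt w j) (wt w k) (wt w l) = hep i j k l)

section
variable {S : Set X} {m : X → X → X → X → ℤ} {n : ℕ} {q : ℕ → X} {F : ℕ → ℕ → ℕ → ℕ → ℤ}

theorem Rp.ne (h : Rp S m n q F) (hn : 0 < n) {w : List ℕ} (hw : wf n w = true) {a b c d : ℕ}
    (hF : (F (wt w a) (wt w b) (wt w c) (wt w d) != 0) = true) :
    m (q (wt w a)) (q (wt w b)) (q (wt w c)) (q (wt w d)) ≠ 0 := by
  rw [h.eq _ _ _ _ (wt_lt hn hw _) (wt_lt hn hw _) (wt_lt hn hw _) (wt_lt hn hw _)]
  exact bne_iff_ne.1 hF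

theorem hex_false (hM : Mo S m) (h : Rp S m n q F) (hn : 0 < n) {w : List ℕ}
    (hw : wf n w = true) (hc : chkHex F w = true) : False := by
  unfold chkHex at hc
  simp only [Bool.and_eq_true] at hc
  obtain ⟨h0, h1, h2, h3, h4, h5⟩ := hc
  exact hM.hex (fun i => q (wt w i)) (fun i => h.qS _) (h.ne hn hw h0) (h.ne hn hw h1)
    (h.ne hn hw h2) (h.ne hn hw h3) (h.ne hn hw h4) (h.ne hn hw h5)

theorem ttt_false (hM : Mo S m) (h : Rp S m n q F) (hn : 0 < n) {w : List ℕ}
    (hw : wf n w = true) (hc : chkTtt F w = true) : False := by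
  unfold chkTtt at hc
  simp only [Bool.and_eq_true] at hc
  obtain ⟨h0, h1, h2, h3, h4, h5⟩ := hc
  exact hM.ttt (fun i => q (wt w i)) (fun i => h.qS _) (h.ne hn hw h0) (h.ne hn hw h1)
    (h.ne hn hw h2) (h.ne hn hw h3) (h.ne hn hw h4) (h.ne hn hw h5)

theorem x7_false (hX : ∀ p : Fin 7 → X, (∀ i, p i ∈ S) → ¬ IsX7 m p) (h : Rp S m n q F)
    (hn : 0 < n) {w : List ℕ} (hw : wf n w = true) (hc : chkX7 F w = true) : False := by
  have hc' := of_decide_eq_true hc
  refine hX (fun i => q (wt w i)) (fun i => h.qS _) ?_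
  intro i j k l
  show m (q (wt w i)) (q (wt w j)) (q (wt w k)) (q (wt w l)) = _
  rw [h.eq _ _ _ _ (wt_lt hn hw _) (wt_lt hn hw _) (wt_lt hn hw _) (wt_lt hn hw _)]
  refine alt_ext (α := Fin 7) (fun _ => True)
    (fun i j k l => F (wt w i) (wt w j) (wt w k) (wt w l)) x7 ?_ ?_ ?_ i j k l
    trivial trivial trivial trivial
  · intro a b c d _ _ _ _
    exact ⟨h.alt.s1 _ _ _ _, h.alt.s2 _ _ _ _, h.alt.s3 _ _ _ _⟩
  · intro a b c d _ _ _ _
    exact ⟨x7_alt.s1 _ _ _ _, x7_alt.s2 _ _ _ _, x7_alt.s3 _ _ _ _⟩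
  · intro a b c d _ _ _ _ h1 h2 h3
    exact hc' a b h1 c h2 d h3

theorem hp_false (hX : ∀ p : Fin 8 → X, (∀ i, p i ∈ S) → ¬ IsHp m p) (h : Rp S m n q F)
    (hn : 0 < n) {w : List ℕ} (hw : wf n w = true) (hc : chkHp F w = true) : False := by
  have hc' := of_decide_eq_true hc
  refine hX (fun i => q (wt w i)) (fun i => h.qS _) ?_
  intro i j k l
  show m (q (wt w i)) (q (wt w j)) (q (wt w k)) (q (wt w l)) = _
  rw [h.eq _ _ _ _ (wt_lt hn hw _) (wt_lt hn hw _) (wt_lt hn hw _) (wt_lt hn hw _)]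
  refine alt_ext (α := Fin 8) (fun _ => True)
    (fun i j k l => F (wt w i) (wt w j) (wt w k) (wt w l)) hep ?_ ?_ ?_ i j k l
    trivial trivial trivial trivial
  · intro a b c d _ _ _ _
    exact ⟨h.alt.s1 _ _ _ _, h.alt.s2 _ _ _ _, h.alt.s3 _ _ _ _⟩
  · intro a b c d _ _ _ _
    exact ⟨hep_alt.s1 _ _ _ _, hep_alt.s2 _ _ _ _, hep_alt.s3 _ _ _ _⟩
  · intro a b c d _ _ _ _ h1 h2 h3
    exact hc' a b h1 c h2 d h3

end

/-! ## five points -/

/-- one if the number is not zero -/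
def nz (a : ℤ) : ℕ := if a = 0 then 0 else 1

/-- none or two of the numbers are not zero -/
def c5 (a b c d e : ℤ) : Bool :=
  (nz a + nz b + nz c + nz d + nz e == 0) || (nz a + nz b + nz c + nz d + nz e == 2)

theorem c5_of {S : Set X} {m : X → X → X → X → ℤ} (hM : Mo S m) {a b c d e : X} (ha : a ∈ S)
    (hb : b ∈ S) (hc : c ∈ S) (hd : d ∈ S) (he : e ∈ S) :
    c5 (m b c d e) (m a c d e) (m a b d e) (m a b c e) (m a b c d) = true := by
  have r1 : ∀ x ∈ S, ∀ y ∈ S, ∀ z ∈ S, ∀ w ∈ S, m y x z w = -m x y z w := fun x hx y hy z hz w hw =>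
    (hM.alt x hx y hy z hz w hw).1
  have r2 : ∀ x ∈ S, ∀ y ∈ S, ∀ z ∈ S, ∀ w ∈ S, m x z y w = -m x y z w := fun x hx y hy z hz w hw =>
    (hM.alt x hx y hy z hz w hw).2.1
  have r3 : ∀ x ∈ S, ∀ y ∈ S, ∀ z ∈ S, ∀ w ∈ S, m x y w z = -m x y z w := fun x hx y hy z hz w hw =>
    (hM.alt x hx y hy z hz w hw).2.2.1
  have x4 := hM.exc a ha b hb c hc d hd e he
  have x0 := hM.exc b hb c hc d hd e he a ha
  have x1 := hM.exc a ha c hc d hd e he b hb
  have x2 := hM.exc a ha b hb d hd e he c hc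
  have x3 := hM.exc a ha b hb c hc e he d hd
  -- signs
  have g1 : m e b c d = -m b c d e := by
    rw [r1 b hb e he c hc d hd, r2 b hb c hc e he d hd, r3 b hb c hc d hd e he]
    ring
  have g2 : m a e c d = m a c d e := by
    rw [r2 a ha c hc e he d hd, r3 a ha c hc d hd e he]
    ring
  have g3 : m a b e d = -m a b d e := r3 a ha b hb d hd e he
  have g4 : m b a d e = -m a b d e := r1 a ha b hb d hd e he
  have g5 : m b c a e = m a b c e := by
    rw [r2 b hb a ha c hc e he, r1 a ha b hb c hc e he]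
    ring
  have g6 : m b c d a = -m a b c d := by
    rw [r3 b hb c hc a ha d hd, r2 b hb a ha c hc d hd, r1 a ha b hb c hc d hd]
    ring
  have g7 : m a c b e = -m a b c e := r2 a ha b hb c hc e he
  have g8 : m a c d b = m a b c d := by
    rw [r3 a ha c hc b hb d hd, r2 a ha b hb c hc d hd]
    ring
  have g9 : m c b d e = -m b c d e := r1 b hb c hc d hd e he
  have g10 : m a b d c = -m a b c d := r3 a ha b hb c hc d hd
  have g11 : m d b c e = m b c d e := by
    rw [r1 b hb d hd c hc e he, r2 b hb c hc d hd e he]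
    ring
  have g12 : m a d c e = -m a c d e := r2 a ha c hc d hd e he
  rw [g1, g2, g3] at x4
  rw [g4, g5, g6] at x0
  rw [g7, g8] at x1
  rw [g9, g10] at x2
  rw [g11, g12] at x3
  simp only [neg_eq_zero, ne_eq] at x0 x1 x2 x3 x4
  generalize m b c d e = A0 at *
  generalize m a c d e = A1 at *
  generalize m a b d e = A2 at *
  generalize m a b c e = A3 at *
  generalize m a b c d = A4 at *
  unfold c5 nz
  by_cases h0 : A0 = 0 <;> by_cases h1 : A1 = 0 <;> by_cases h2 : A2 = 0 <;>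
    by_cases h3 : A3 = 0 <;> by_cases h4 : A4 = 0 <;>
    simp only [h0, h1, h2, h3, h4, if_true, if_false, not_true, not_false_iff]
      at x0 x1 x2 x3 x4 ⊢ <;>
    first | rfl | (exfalso; tauto)

end Pool.Agent.H14.FN
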