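import Pool.Agent.H14.FN.Cert

/-!
# MP_6a7a6f_gt, FN, row PX7: a pentagonal pyramid and one more point
-/

set_option autoImplicit false
set_option maxRecDepth 100000

namespace Pool.Agent.H14.FN

open Pool.Agent.H58.FN

/-- the correction: `t a b` at the triples `6, a, b` -/
def g7 (t : ℕ → ℕ → ℤ) (a b c : ℕ) : ℤ :=
  (if a = 6 then t b c else 0) + (if b = 6 then t c a else 0) + (if c = 6 then t a b else 0)

/-- the labels -/
def lab7 (i : ℕ) : ℕ := if i < 6 then i else 5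

/-- the configuration of the pyramid and one more point -/
def F7 (t : ℕ → ℕ → ℤ) : ℕ → ℕ → ℕ → ℕ → ℤ := Fm lab7 (g7 t)

theorem F7_alt {t : ℕ → ℕ → ℤ} (ht : ∀ a b, t b a = -t a b) : Alt4 (F7 t) := by
  refine Fm_alt fun a b c => ⟨?_, ?_⟩
  · unfold g7
    rw [ht b c, ht c a, ht a b]
    split_ifs <;> ring
  · unfold g7
    rw [ht b c, ht c a, ht a b]
    split_ifs <;> ring

/-- the table of a list -/
def tb (v : List ℤ) (a b : ℕ) : ℤ :=
  if a < 5 ∧ b < 5 then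
    (if a < b then v.getD (b * (b - 1) / 2 + a) 0
      else if b < a then -v.getD (a * (a - 1) / 2 + b) 0 else 0)
  else 0

/-- the values -/
def R3 : List ℤ := [-1, 0, 1]

/-- the value at three points of the rim -/
def rr (τ x y z : ℤ) : ℤ := τ - z + y - x

/-- the condition for three points of the rim -/
def k3 (τ x y z : ℤ) : Bool :=
  ((rr τ x y z == 0) || ((rr τ x y z == 1) || (rr τ x y z == -1))) && c5 (rr τ x y z) τ z y x

/-- the certificate of a twin -/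
def chkTw (F : ℕ → ℕ → ℕ → ℕ → ℤ) (l : ℕ) : Bool :=
  decide (∀ i j k : Fin 6, F 6 i j k = pyr 5 l i j k)

/-- the certificates -/
def cert7 : List (List ℤ × ℕ × List ℕ) := [
  ([0,0,0,-1,0,0,-1,-1,0,0], 0, [2]),
  ([0,0,0,-1,0,0,-1,0,0,0], 2, [0,5,3,1,4,6]),
  ([0,0,0,-1,0,0,0,-1,0,0], 2, [0,3,5,1,4,6]),
  ([0,0,0,-1,0,0,0,0,0,0], 1, [4,1,6,2,0,5,3]),
  ([0,0,0,-1,0,0,0,0,0,1], 2, [0,2,4,6,3,5]),
  ([0,0,0,-1,0,0,0,0,1,0], 2, [0,3,6,4,2,5]),
  ([0,0,0,-1,0,0,0,0,1,1], 0, [1]),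
  ([0,0,0,0,0,0,-1,-1,0,0], 2, [0,3,1,5,4,6]),
  ([0,0,0,0,0,0,0,-1,0,0], 1, [0,2,6,3,1,5,4]),
  ([0,0,0,0,0,0,0,0,0,0], 0, [5]),
  ([0,0,0,0,0,0,0,0,1,0], 1, [3,0,6,1,4,5,2]),
  ([0,0,0,0,0,0,0,0,1,1], 2, [0,2,5,4,6,3]),
  ([0,0,0,0,0,1,-1,-1,0,0], 2, [0,3,1,5,4,6]),
  ([0,0,0,0,0,1,0,-1,0,0], 3, [1,4,5,2,3,6]),
  ([0,0,0,0,0,1,0,0,1,0], 2, [1,3,6,2,5,4]),
  ([0,0,0,0,1,0,-1,0,0,0], 3, [0,4,6,1,3,5]),
  ([0,0,0,0,1,0,0,0,0,0], 1, [2,0,4,6,1,3,5]),
  ([0,0,0,0,1,0,0,0,1,0], 2, [1,3,6,2,4,5]),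
  ([0,0,0,0,1,1,-1,0,0,0], 2, [0,4,6,3,2,5]),
  ([0,0,0,0,1,1,0,0,0,0], 2, [1,4,2,6,3,5]),
  ([0,0,0,0,1,1,0,0,1,0], 0, [0]),
  ([0,0,1,-1,0,0,-1,0,0,0], 2, [0,4,5,2,1,6]),
  ([0,0,1,-1,0,0,0,0,0,0], 3, [0,3,5,1,2,6]),
  ([0,0,1,-1,0,0,0,0,0,1], 2, [0,2,4,6,3,5]),
  ([0,0,1,0,1,0,-1,0,0,0], 2, [0,2,6,1,5,3]),
  ([0,0,1,0,1,0,0,0,0,0], 2, [0,2,6,1,5,3]),
  ([0,1,0,0,0,0,0,-1,0,0], 2, [0,2,5,4,1,6]),
  ([0,1,0,0,0,0,0,0,0,0], 1, [1,3,6,4,2,5,0]),
  ([0,1,0,0,0,0,0,0,0,1], 3, [0,2,5,3,4,6]),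
  ([0,1,0,0,1,0,0,0,0,0], 2, [0,2,6,1,3,5]),
  ([0,1,1,0,0,0,0,0,0,0], 2, [0,3,1,6,2,5]),
  ([0,1,1,0,0,0,0,0,0,1], 2, [0,3,1,6,2,5]),
  ([0,1,1,0,1,0,0,0,0,0], 0, [4]),
  ([1,0,0,0,0,0,0,-1,0,0], 2, [0,2,4,5,1,6]),
  ([1,0,0,0,0,0,0,0,1,0], 3, [0,1,6,2,4,5]),
  ([1,0,0,0,0,0,0,0,1,1], 2, [0,1,5,3,4,6]),
  ([1,0,0,0,0,1,0,-1,0,0], 2, [0,1,6,2,3,5]),
  ([1,0,0,0,0,1,0,0,1,0], 2, [0,1,6,2,3,5]),
  ([1,1,0,0,0,0,0,-1,0,0], 0, [3]),
  ([1,1,0,0,0,0,0,0,0,0], 2, [0,5,2,4,1,6]),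
  ([1,1,0,0,0,0,0,0,0,1], 2, [0,1,5,3,4,6])]

/-- the check of one certificate -/
def ck7 (v : List ℤ) (ty : ℕ) (w : List ℕ) : Bool :=
  if ty = 0 then decide (wt w 0 < 6) && chkTw (F7 (tb v)) (wt w 0)
  else wf 7 w && (if ty = 1 then chkX7 (F7 (tb v)) w
    else if ty = 2 then chkHex (F7 (tb v)) w else chkTtt (F7 (tb v)) w)

/-- the check at a leaf -/
def leaf7 (v : List ℤ) : Bool := cert7.any fun c => (c.1 == v) && ck7 v c.2.1 c.2.2

/-- implication -/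
def imp (b c : Bool) : Bool := !b || c

theorem imp_of {b c : Bool} (h : imp b c = true) (hb : b = true) : c = true := by
  subst hb
  exact h

theorem all3 {f : ℤ → Bool} (h : R3.all f = true) {a : ℤ} (ha : a ∈ R3) : f a = true :=
  List.all_eq_true.1 h a ha

/-- the search -/
def srch7 : Bool :=
  R3.all fun a => R3.all fun b => R3.all fun c => imp (k3 0 a b c) <|
  R3.all fun d => R3.all fun e => imp (k3 1 a d e) <|
  R3.all fun f => imp (k3 1 b d f) <| imp (k3 0 c e f) <|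
  imp (c5 0 (rr 0 c e f) (rr 1 b d f) (rr 1 a d e) (rr 0 a b c)) <|
  R3.all fun g => R3.all fun h => imp (k3 0 a g h) <|
  R3.all fun i => imp (k3 1 b g i) <| imp (k3 1 c h i) <|
  imp (c5 0 (rr 1 c h i) (rr 1 b g i) (rr 0 a g h) (rr 0 a b c)) <|
  R3.all fun j => imp (k3 0 d g j) <| imp (k3 1 e h j) <| imp (k3 0 f i j) <|
  imp (c5 0 (rr 1 e h j) (rr 0 d g j) (rr 0 a g h) (rr 1 a d e)) <|
  imp (c5 0 (rr 0 f i j) (rr 0 d g j) (rr 1 b g i) (rr 1 b d f)) <|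
  imp (c5 0 (rr 0 f i j) (rr 1 e h j) (rr 1 c h i) (rr 0 c e f)) <|
  leaf7 [a, b, c, d, e, f, g, h, i, j]

theorem srch7_true : srch7 = true := by
  decide +kernel

theorem nat_lt5 {a : ℕ} (h : a < 5) : a = 0 ∨ a = 1 ∨ a = 2 ∨ a = 3 ∨ a = 4 := by omega

/-- an antisymmetric function is given by its table -/
theorem tb_eq {t : ℕ → ℕ → ℤ} (ht : ∀ a b, t b a = -t a b)
    (h0 : ∀ a b, ¬ (a < 5 ∧ b < 5) → t a b = 0) :
    t = tb [t 0 1, t 0 2, t 1 2, t 0 3, t 1 3, t 2 3, t 0 4, t 1 4, t 2 4, t 3 4] := by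
  funext a b
  by_cases h : a < 5 ∧ b < 5
  · have hd : ∀ a, t a a = 0 := fun a => by
      have := ht a a
      omega
    obtain ⟨ha, hb⟩ := h
    rcases nat_lt5 ha with rfl | rfl | rfl | rfl | rfl <;>
      rcases nat_lt5 hb with rfl | rfl | rfl | rfl | rfl <;>
      first
        | rfl
        | exact hd _
        | exact ht _ _
  · rw [h0 a b h]
    unfold tb
    rw [if_neg h]

section
variable {X : Type} {S : Set X} {m : X → X → X → X → ℤ}

/-- the seven points -/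
def q7 (p : Fin 6 → X) (x : X) (i : ℕ) : X := if h : i < 6 then p ⟨i, h⟩ else x

theorem q7_lt (p : Fin 6 → X) (x : X) {i : ℕ} (h : i < 6) : q7 p x i = p ⟨i, h⟩ := dif_pos h

theorem q7_six (p : Fin 6 → X) (x : X) : q7 p x 6 = x := dif_neg (by omega)

theorem q7_mem {p : Fin 6 → X} {x : X} (hp : ∀ i, p i ∈ S) (hx : x ∈ S) (i : ℕ) :
    q7 p x i ∈ S := by
  unfold q7
  split_ifs
  · exact hp _
  · exact hx

theorem q7_pen {p : Fin 6 → X} (hpy : IsPy m p) (x : X) {a b c d : ℕ} (ha : a < 6) (hb : b < 6)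
    (hc : c < 6) (hd : d < 6) :
    m (q7 p x a) (q7 p x b) (q7 p x c) (q7 p x d) = pyr 5 a b c d := by
  rw [q7_lt p x ha, q7_lt p x hb, q7_lt p x hc, q7_lt p x hd, hpy]
  rfl

/-- the unknown numbers -/
def t7 (m : X → X → X → X → ℤ) (p : Fin 6 → X) (x : X) (a b : ℕ) : ℤ :=
  if a < 5 ∧ b < 5 then m (q7 p x 5) x (q7 p x a) (q7 p x b) else 0

theorem t7_anti (hM : Mo S m) {p : Fin 6 → X} {x : X} (hp : ∀ i, p i ∈ S) (hx : x ∈ S)
    (a b : ℕ) : t7 m p x b a = -t7 m p x a b := by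
  unfold t7
  by_cases h : a < 5 ∧ b < 5
  · rw [if_pos h, if_pos ⟨h.2, h.1⟩]
    exact (hM.alt _ (q7_mem hp hx 5) _ hx _ (q7_mem hp hx a) _ (q7_mem hp hx b)).2.2.1
  · rw [if_neg h, if_neg (fun h' => h ⟨h'.2, h'.1⟩)]
    rfl

theorem tau_of_ge {N a b c : ℕ} (h : ¬ (a < N ∧ b < N ∧ c < N)) : tau N a b c = 0 := by
  unfold tau
  rw [if_neg h]

theorem pyr5_apex {a b c : ℕ} (ha : a < 5) (hb : b < 5) (hc : c < 5) :
    pyr 5 5 a b c = tau 5 a b c ∧ pyr 5 a b c 5 = -tau 5 a b c := by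
  unfold pyr
  rw [if_pos rfl, if_neg (by omega), if_neg (by omega), if_neg (by omega), if_neg (by omega),
    if_neg (by omega), if_neg (by omega)]
  constructor <;> ring

/-- the values at three points of the rim -/
theorem rim7 (hM : Mo S m) {p : Fin 6 → X} (hp : ∀ i, p i ∈ S) (hpy : IsPy m p) {x : X}
    (hx : x ∈ S) {a b c : ℕ} (ha : a < 5) (hb : b < 5) (hc : c < 5) :
    m x (q7 p x a) (q7 p x b) (q7 p x c) =
      rr (tau 5 a b c) (t7 m p x a b) (t7 m p x a c) (t7 m p x b c) := by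
  have h1 := hM.coc _ (q7_mem hp hx 5) x hx _ (q7_mem hp hx a) _ (q7_mem hp hx b) _
    (q7_mem hp hx c)
  rw [q7_pen hpy x (by omega) (by omega) (by omega) (by omega), (pyr5_apex ha hb hc).1] at h1
  unfold rr t7
  rw [if_pos (show a < 5 ∧ b < 5 from ⟨ha, hb⟩), if_pos (show a < 5 ∧ c < 5 from ⟨ha, hc⟩),
    if_pos (show b < 5 ∧ c < 5 from ⟨hb, hc⟩)]
  linarith

theorem rp7 (hM : Mo S m) {p : Fin 6 → X} (hp : ∀ i, p i ∈ S) (hpy : IsPy m p) {x : X}
    (hx : x ∈ S) : Rp S m 7 (q7 p x) (F7 (t7 m p x)) := by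
  refine Rp.of_lt hM (q7_mem hp hx) (F7_alt (t7_anti hM hp hx)) ?_
  intro a b c d _ _ _ hd h1 h2 h3
  unfold F7 Fm g7 lab7
  rcases Nat.lt_or_ge d 6 with h4 | h4
  · rw [q7_pen hpy x (by omega) (by omega) (by omega) h4]
    rw [if_pos (show a < 6 by omega), if_pos (show b < 6 by omega), if_pos (show c < 6 by omega),
      if_pos h4]
    rw [if_neg (show ¬ a = 6 by omega), if_neg (show ¬ b = 6 by omega),
      if_neg (show ¬ c = 6 by omega), if_neg (show ¬ d = 6 by omega)]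
    simp only [if_neg (show ¬ b = 6 by omega), if_neg (show ¬ c = 6 by omega),
      if_neg (show ¬ a = 6 by omega), if_neg (show ¬ d = 6 by omega)]
    ring
  · have h5 : d = 6 := by omega
    subst h5
    simp only [if_neg (show ¬ b = 6 by omega), if_neg (show ¬ c = 6 by omega),
      if_neg (show ¬ a = 6 by omega), if_pos (show a < 6 by omega), if_pos (show b < 6 by omega),
      if_pos (show c < 6 by omega), if_true, if_neg (show ¬ 6 < 6 by omega)]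
    rw [q7_six]
    have hqa := q7_mem hp hx a
    have hqb := q7_mem hp hx b
    have hqc := q7_mem hp hx c
    rcases Nat.lt_or_ge c 5 with h6 | h6
    · have e1 : m (q7 p x a) (q7 p x b) (q7 p x c) x = -m x (q7 p x a) (q7 p x b) (q7 p x c) := by
        have i1 := (hM.alt _ hx _ hqa _ hqb _ hqc).1
        have i2 := (hM.alt _ hqa _ hx _ hqb _ hqc).2.1
        have i3 := (hM.alt _ hqa _ hqb _ hx _ hqc).2.2.1
        linarith
      rw [e1, rim7 hM hp hpy hx (by omega) (by omega) h6,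
        (pyr5_apex (by omega) (by omega) h6).2]
      unfold rr
      ring
    · have h7 : c = 5 := by omega
      subst h7
      have e1 : m (q7 p x a) (q7 p x b) (q7 p x 5) x = m (q7 p x 5) x (q7 p x a) (q7 p x b) := by
        have i1 := (hM.alt _ hqc _ hx _ hqa _ hqb).2.1
        have i2 := (hM.alt _ hqc _ hqa _ hx _ hqb).1
        have i3 := (hM.alt _ hqa _ hqc _ hx _ hqb).2.2.1
        have i4 := (hM.alt _ hqa _ hqc _ hqb _ hx).2.1
        linarith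
      have e2 : t7 m p x a b = m (q7 p x 5) x (q7 p x a) (q7 p x b) := by
        unfold t7
        rw [if_pos ⟨by omega, by omega⟩]
      have e3 : t7 m p x b 5 = 0 := by
        unfold t7
        rw [if_neg (by omega)]
      have e4 : t7 m p x 5 a = 0 := by
        unfold t7
        rw [if_neg (by omega)]
      have e5 : t7 m p x a 5 = 0 := by
        unfold t7
        rw [if_neg (by omega)]
      have e6 : pyr 5 a b 5 5 = 0 := by
        unfold pyr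
        rw [if_neg (by omega), if_neg (by omega), if_pos rfl]
        ring
      rw [e1, ← e2, e3, e6]
      simp only [e4, e5]
      ring

theorem mem3 {a : ℤ} (h : |a| ≤ 1) : a ∈ R3 := by
  rw [abs_le] at h
  have : a = -1 ∨ a = 0 ∨ a = 1 := by omega
  rcases this with rfl | rfl | rfl <;> simp [R3]

theorem k3_of {τ x y z : ℤ} (h : |rr τ x y z| ≤ 1) (h5 : c5 (rr τ x y z) τ z y x = true) :
    k3 τ x y z = true := by
  unfold k3
  rw [h5, Bool.and_true]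
  rw [abs_le] at h
  have : rr τ x y z = 0 ∨ rr τ x y z = 1 ∨ rr τ x y z = -1 := by omega
  rcases this with h | h | h <;> rw [h] <;> rfl

/-- the condition for three points of the rim -/
theorem cond3 (hM : Mo S m) {p : Fin 6 → X} (hp : ∀ i, p i ∈ S) (hpy : IsPy m p) {x : X}
    (hx : x ∈ S) {a b c : ℕ} (ha : a < 5) (hb : b < 5) (hc : c < 5) :
    k3 (tau 5 a b c) (t7 m p x a b) (t7 m p x a c) (t7 m p x b c) = true := by
  have hqa := q7_mem hp hx a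
  have hqb := q7_mem hp hx b
  have hqc := q7_mem hp hx c
  have h1 := rim7 hM hp hpy hx ha hb hc
  refine k3_of ?_ ?_
  · rw [← h1]
    exact (hM.alt _ hx _ hqa _ hqb _ hqc).2.2.2
  · have h2 := c5_of hM (q7_mem hp hx 5) hx hqa hqb hqc
    rw [h1, q7_pen hpy x (by omega) (by omega) (by omega) (by omega),
      (pyr5_apex ha hb hc).1] at h2
    have e1 : t7 m p x a b = m (q7 p x 5) x (q7 p x a) (q7 p x b) := if_pos ⟨ha, hb⟩
    have e2 : t7 m p x a c = m (q7 p x 5) x (q7 p x a) (q7 p x c) := if_pos ⟨ha, hc⟩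
    have e3 : t7 m p x b c = m (q7 p x 5) x (q7 p x b) (q7 p x c) := if_pos ⟨hb, hc⟩
    rw [← e1, ← e2, ← e3] at h2
    exact h2

/-- the condition for four points of the rim -/
theorem cond4 (hM : Mo S m) {p : Fin 6 → X} (hp : ∀ i, p i ∈ S) (hpy : IsPy m p) {x : X}
    (hx : x ∈ S) {a b c d : ℕ} (ha : a < 5) (hb : b < 5) (hc : c < 5) (hd : d < 5) :
    c5 0 (rr (tau 5 b c d) (t7 m p x b c) (t7 m p x b d) (t7 m p x c d))
      (rr (tau 5 a c d) (t7 m p x a c) (t7 m p x a d) (t7 m p x c d))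
      (rr (tau 5 a b d) (t7 m p x a b) (t7 m p x a d) (t7 m p x b d))
      (rr (tau 5 a b c) (t7 m p x a b) (t7 m p x a c) (t7 m p x b c)) = true := by
  have h2 := c5_of hM hx (q7_mem hp hx a) (q7_mem hp hx b) (q7_mem hp hx c) (q7_mem hp hx d)
  rw [rim7 hM hp hpy hx hb hc hd, rim7 hM hp hpy hx ha hc hd, rim7 hM hp hpy hx ha hb hd,
    rim7 hM hp hpy hx ha hb hc, q7_pen hpy x (by omega) (by omega) (by omega) (by omega)] at h2
  have h3 : pyr 5 a b c d = 0 := by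
    unfold pyr
    rw [if_neg (by omega), if_neg (by omega), if_neg (by omega), if_neg (by omega)]
    ring
  rw [h3] at h2
  exact h2

theorem leaf7_of (hM : Mo S m) {p : Fin 6 → X} (hp : ∀ i, p i ∈ S) (hpy : IsPy m p) {x : X}
    (hx : x ∈ S) : leaf7 [t7 m p x 0 1, t7 m p x 0 2, t7 m p x 1 2, t7 m p x 0 3, t7 m p x 1 3,
      t7 m p x 2 3, t7 m p x 0 4, t7 m p x 1 4, t7 m p x 2 4, t7 m p x 3 4] = true := by
  have hmem : ∀ a b, t7 m p x a b ∈ R3 := by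
    intro a b
    refine mem3 ?_
    unfold t7
    split_ifs
    · exact (hM.alt _ (q7_mem hp hx 5) _ hx _ (q7_mem hp hx a) _ (q7_mem hp hx b)).2.2.2
    · rw [abs_zero]
      exact zero_le_one
  have k (a b c : ℕ) (ha : a < 5) (hb : b < 5) (hc : c < 5) := cond3 hM hp hpy hx ha hb hc
  have l (a b c d : ℕ) (ha : a < 5) (hb : b < 5) (hc : c < 5) (hd : d < 5) :=
    cond4 hM hp hpy hx ha hb hc hd
  have s0 : srch7 = true := srch7_true
  unfold srch7 at s0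
  have s1 := all3 (all3 (all3 s0 (hmem 0 1)) (hmem 0 2)) (hmem 1 2)
  have s2 := all3 (all3 (imp_of s1 (k 0 1 2 (by omega) (by omega) (by omega))) (hmem 0 3))
    (hmem 1 3)
  have s3 := all3 (imp_of s2 (k 0 1 3 (by omega) (by omega) (by omega))) (hmem 2 3)
  have s4 := imp_of (imp_of (imp_of s3 (k 0 2 3 (by omega) (by omega) (by omega)))
    (k 1 2 3 (by omega) (by omega) (by omega)))
    (l 0 1 2 3 (by omega) (by omega) (by omega) (by omega))
  have s5 := all3 (all3 s4 (hmem 0 4)) (hmem 1 4)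
  have s6 := all3 (imp_of s5 (k 0 1 4 (by omega) (by omega) (by omega))) (hmem 2 4)
  have s7 := imp_of (imp_of (imp_of s6 (k 0 2 4 (by omega) (by omega) (by omega)))
    (k 1 2 4 (by omega) (by omega) (by omega)))
    (l 0 1 2 4 (by omega) (by omega) (by omega) (by omega))
  have s8 := all3 s7 (hmem 3 4)
  have s9 := imp_of (imp_of (imp_of s8 (k 0 3 4 (by omega) (by omega) (by omega)))
    (k 1 3 4 (by omega) (by omega) (by omega))) (k 2 3 4 (by omega) (by omega) (by omega))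
  exact imp_of (imp_of (imp_of s9 (l 0 1 3 4 (by omega) (by omega) (by omega) (by omega)))
    (l 0 2 3 4 (by omega) (by omega) (by omega) (by omega)))
    (l 1 2 3 4 (by omega) (by omega) (by omega) (by omega))

end

theorem pf_PX7 (_hPBS : T_PBS) : T_PX7 := by
  intro X S m hM hX p hp hpy x hx
  have hl := leaf7_of hM hp hpy hx
  have hr := rp7 hM hp hpy hx
  rw [tb_eq (t7_anti hM hp hx) (fun a b h => if_neg h)] at hr
  generalize [t7 m p x 0 1, t7 m p x 0 2, t7 m p x 1 2, t7 m p x 0 3, t7 m p x 1 3,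
      t7 m p x 2 3, t7 m p x 0 4, t7 m p x 1 4, t7 m p x 2 4, t7 m p x 3 4] = v at hl hr
  unfold leaf7 at hl
  rw [List.any_eq_true] at hl
  obtain ⟨c, -, hc⟩ := hl
  rw [Bool.and_eq_true] at hc
  have hc2 := hc.2
  unfold ck7 at hc2
  by_cases h0 : c.2.1 = 0
  · rw [if_pos h0, Bool.and_eq_true] at hc2
    obtain ⟨h1, h2⟩ := hc2
    have h1' := of_decide_eq_true h1
    have h2' := of_decide_eq_true h2
    refine ⟨⟨wt c.2.2 0, h1'⟩, fun i j k => ?_⟩
    have e := hr.eq 6 i j k (by omega) (by omega) (by omega) (by omega)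
    rw [q7_six, q7_lt p x i.2, q7_lt p x j.2, q7_lt p x k.2, h2' i j k] at e
    exact e
  · rw [if_neg h0, Bool.and_eq_true] at hc2
    obtain ⟨h1, h2⟩ := hc2
    exfalso
    by_cases h3 : c.2.1 = 1
    · rw [if_pos h3] at h2
      exact x7_false hX hr (by norm_num) h1 h2
    · rw [if_neg h3] at h2
      by_cases h4 : c.2.1 = 2
      · rw [if_pos h4] at h2
        exact hex_false hM hr (by norm_num) h1 h2
      · rw [if_neg h4] at h2
        exact ttt_false hM hr (by norm_num) h1 h2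

end Pool.Agent.H14.FN
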