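import Pool.Agent.H14.FN.PX8S

/-!
# MP_6a7a6f_gt, FN, row PX8: a pentagonal pyramid and two more points
-/

set_option autoImplicit false

namespace Pool.Agent.H14.FN

open Pool.Agent.H58.FN

theorem sl8_eq {l k : ℕ} {s : ℕ → ℤ} (w : ℕ → ℤ) (h : ∀ a, a < 5 → s a = w a - pyr 5 l k 5 a)
    (h0 : ∀ a, ¬ a < 5 → s a = 0) : s = sl8 l k [w 0, w 1, w 2, w 3, w 4] := by
  funext a
  unfold sl8
  by_cases ha : a < 5
  · rw [if_pos ha, h a ha]
    rcases nat_lt5 ha with rfl | rfl | rfl | rfl | rfl <;> rfl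
  · rw [if_neg ha, h0 a ha]

section
variable {X : Type} {S : Set X} {m : X → X → X → X → ℤ}

/-- the eight points -/
def q8 (p : Fin 6 → X) (x y : X) (i : ℕ) : X :=
  if h : i < 6 then p ⟨i, h⟩ else if i = 6 then x else y

theorem q8_lt (p : Fin 6 → X) (x y : X) {i : ℕ} (h : i < 6) : q8 p x y i = p ⟨i, h⟩ := dif_pos h

theorem q8_six (p : Fin 6 → X) (x y : X) : q8 p x y 6 = x := by
  unfold q8
  rw [dif_neg (by omega), if_pos rfl]

theorem q8_seven (p : Fin 6 → X) (x y : X) : q8 p x y 7 = y := by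
  unfold q8
  rw [dif_neg (by omega), if_neg (by omega)]

theorem q8_mem {p : Fin 6 → X} {x y : X} (hp : ∀ i, p i ∈ S) (hx : x ∈ S) (hy : y ∈ S) (i : ℕ) :
    q8 p x y i ∈ S := by
  unfold q8
  split_ifs
  · exact hp _
  · exact hx
  · exact hy

/-- the unknown numbers -/
def w8 (m : X → X → X → X → ℤ) (p : Fin 6 → X) (x y : X) (a : ℕ) : ℤ :=
  if a < 5 then m x y (q8 p x y 5) (q8 p x y a) else 0

/-- the differences -/
def s8 (m : X → X → X → X → ℤ) (p : Fin 6 → X) (x y : X) (l k a : ℕ) : ℤ :=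
  if a < 5 then w8 m p x y a - pyr 5 l k 5 a else 0

theorem pyr5_coc (a b c d e : Fin 6) :
    pyr 5 b c d e - pyr 5 a c d e + pyr 5 a b d e - pyr 5 a b c e + pyr 5 a b c d = 0 := by
  have h : ∀ a b c d e : Fin 6,
      pyr 5 b c d e - pyr 5 a c d e + pyr 5 a b d e - pyr 5 a b c e + pyr 5 a b c d = 0 := by
    decide +kernel
  exact h a b c d e

variable (hM : Mo S m) {p : Fin 6 → X} (hp : ∀ i, p i ∈ S) {x y : X} (hx : x ∈ S) (hy : y ∈ S)
  {l k : Fin 6} (hl : ∀ a b c, m x (p a) (p b) (p c) = pen l a b c)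
  (hk : ∀ a b c, m y (p a) (p b) (p c) = pen k a b c)

include hM hp hx hy hl hk in
/-- the values at `x, y` and two points of the pyramid -/
theorem val8 {a b : ℕ} (ha : a < 6) (hb : b < 6) :
    m x y (q8 p x y a) (q8 p x y b) = ww l k a b (w8 m p x y a) (w8 m p x y b) := by
  have hqa := q8_mem hp hx hy a
  have hqb := q8_mem hp hx hy b
  have hq5 := q8_mem hp hx hy 5
  have h1 := hM.coc x hx y hy _ hq5 _ hqa _ hqb
  have e1 : m x (q8 p x y 5) (q8 p x y a) (q8 p x y b) = pyr 5 l 5 a b := by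
    rw [q8_lt p x y ha, q8_lt p x y hb, q8_lt p x y (by omega), hl]
    rfl
  have e2 : m y (q8 p x y 5) (q8 p x y a) (q8 p x y b) = pyr 5 k 5 a b := by
    rw [q8_lt p x y ha, q8_lt p x y hb, q8_lt p x y (by omega), hk]
    rfl
  have h2 := pyr5_coc l k 5 ⟨a, ha⟩ ⟨b, hb⟩
  have h2' : pyr 5 k 5 a b - pyr 5 l 5 a b + pyr 5 l k a b - pyr 5 l k 5 b + pyr 5 l k 5 a = 0 :=
    h2
  have h55 : m x y (q8 p x y 5) (q8 p x y 5) = 0 := by
    have := (hM.alt x hx y hy _ hq5 _ hq5).2.2.1
    omega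
  have hp55 : pyr 5 l k 5 5 = 0 := by
    have := pyr5_alt.s3 l k 5 5
    omega
  have f : ∀ {c : ℕ}, c < 6 → m x y (q8 p x y 5) (q8 p x y c) - pyr 5 l k 5 c =
      w8 m p x y c - pyr 5 l k 5 c := by
    intro c hc
    unfold w8
    by_cases h5 : c < 5
    · rw [if_pos h5]
    · have : c = 5 := by omega
      subst this
      rw [if_neg h5, h55]
  have fa := f ha
  have fb := f hb
  rw [e1, e2] at h1
  unfold ww
  linarith

include hM hp hx hy hl hk in
theorem rp8 (hpy : IsPy m p) : Rp S m 8 (q8 p x y) (F8 l k (s8 m p x y l k)) := by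
  refine Rp.of_lt hM (q8_mem hp hx hy) (F8_alt _ _ _) ?_
  intro a b c d _ _ _ hd h1 h2 h3
  have hqa := q8_mem hp hx hy a
  have hqb := q8_mem hp hx hy b
  have hqc := q8_mem hp hx hy c
  unfold F8 Fm
  -- the labels of the points of the pyramid
  have lb : ∀ {i : ℕ}, i < 6 → lab8 l k i = i := fun h => if_pos h
  have l6 : lab8 l k 6 = l := by unfold lab8; rw [if_neg (by omega), if_pos rfl]
  have l7 : lab8 l k 7 = k := by unfold lab8; rw [if_neg (by omega), if_neg (by omega)]
  have ez : ∀ {i j : ℕ}, i < 6 → e67 i j = 0 := by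
    intro i j h
    unfold e67
    rw [if_neg (by omega), if_neg (by omega)]
  have ez' : ∀ {i j : ℕ}, j < 6 → e67 i j = 0 := by
    intro i j h
    unfold e67
    rw [if_neg (by omega), if_neg (by omega)]
  rcases Nat.lt_or_ge c 6 with h4 | h4
  · have ha6 : a < 6 := by omega
    have hb6 : b < 6 := by omega
    have g1 : g8 (s8 m p x y l k) b c d = 0 := by
      unfold g8; rw [ez hb6, ez h4, ez' hb6]; ring
    have g2 : g8 (s8 m p x y l k) a c d = 0 := by
      unfold g8; rw [ez ha6, ez h4, ez' ha6]; ring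
    have g3 : g8 (s8 m p x y l k) a b d = 0 := by
      unfold g8; rw [ez ha6, ez hb6, ez' ha6]; ring
    have g4 : g8 (s8 m p x y l k) a b c = 0 := by
      unfold g8; rw [ez ha6, ez hb6, ez h4]; ring
    rw [g1, g2, g3, g4, lb ha6, lb hb6, lb h4]
    have hrot : ∀ z ∈ S, m (q8 p x y a) (q8 p x y b) (q8 p x y c) z =
        -m z (q8 p x y a) (q8 p x y b) (q8 p x y c) := by
      intro z hz
      have i1 := (hM.alt _ hz _ hqa _ hqb _ hqc).1
      have i2 := (hM.alt _ hqa _ hz _ hqb _ hqc).2.1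
      have i3 := (hM.alt _ hqa _ hqb _ hz _ hqc).2.2.1
      linarith
    have prot : ∀ e : ℕ, pyr 5 a b c e = -pyr 5 e a b c := by
      intro e
      have i1 := pyr5_alt.s1 e a b c
      have i2 := pyr5_alt.s2 a e b c
      have i3 := pyr5_alt.s3 a b e c
      linarith
    have hd8 : d < 6 ∨ d = 6 ∨ d = 7 := by omega
    rcases hd8 with h5 | rfl | rfl
    · rw [lb h5, q8_lt p x y ha6, q8_lt p x y hb6, q8_lt p x y h4, q8_lt p x y h5, hpy]
      show pyr 5 a b c d = _
      ring
    · rw [q8_six, hrot x hx, l6, prot, q8_lt p x y ha6, q8_lt p x y hb6, q8_lt p x y h4, hl]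
      show -pyr 5 l a b c = _
      ring
    · rw [q8_seven, hrot y hy, l7, prot, q8_lt p x y ha6, q8_lt p x y hb6, q8_lt p x y h4, hk]
      show -pyr 5 k a b c = _
      ring
  · have hc6 : c = 6 := by omega
    have hd7 : d = 7 := by omega
    subst hc6 hd7
    have ha6 : a < 6 := by omega
    have hb6 : b < 6 := by omega
    have e1 : e67 6 7 = 1 := rfl
    have g1 : g8 (s8 m p x y l k) b 6 7 = s8 m p x y l k b := by
      unfold g8; rw [ez hb6, ez' hb6, e1]; ring
    have g2 : g8 (s8 m p x y l k) a 6 7 = s8 m p x y l k a := by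
      unfold g8; rw [ez ha6, ez' ha6, e1]; ring
    have g3 : g8 (s8 m p x y l k) a b 7 = 0 := by
      unfold g8; rw [ez ha6, ez hb6, ez' ha6]; ring
    have g4 : g8 (s8 m p x y l k) a b 6 = 0 := by
      unfold g8; rw [ez ha6, ez hb6, ez' ha6]; ring
    rw [g1, g2, g3, g4, lb ha6, lb hb6, l6, l7, q8_six, q8_seven]
    have hrot : m (q8 p x y a) (q8 p x y b) x y = m x y (q8 p x y a) (q8 p x y b) := by
      have i1 := (hM.alt _ hx _ hy _ hqa _ hqb).2.1
      have i2 := (hM.alt _ hx _ hqa _ hy _ hqb).1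
      have i3 := (hM.alt _ hqa _ hx _ hy _ hqb).2.2.1
      have i4 := (hM.alt _ hqa _ hx _ hqb _ hy).2.1
      linarith
    have prot : pyr 5 a b l k = pyr 5 l k a b := by
      have i1 := pyr5_alt.s2 l k a b
      have i2 := pyr5_alt.s1 l a k b
      have i3 := pyr5_alt.s3 a l k b
      have i4 := pyr5_alt.s2 a l b k
      linarith
    have hp55 : pyr 5 l k 5 5 = 0 := by
      have := pyr5_alt.s3 l k 5 5
      omega
    have hs : ∀ {c : ℕ}, c < 6 → w8 m p x y c - pyr 5 l k 5 c = s8 m p x y l k c := by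
      intro c hc
      unfold s8
      by_cases h5 : c < 5
      · rw [if_pos h5]
      · have : c = 5 := by omega
        subst this
        rw [if_neg h5, hp55]
        unfold w8
        rw [if_neg h5]
        rfl
    rw [hrot, prot, val8 hM hp hx hy hl hk ha6 hb6]
    unfold ww
    rw [hs ha6, hs hb6]
    ring

theorem rng_of {z : ℤ} (h : |z| ≤ 1) : rng z = true := by
  rw [abs_le] at h
  have : z = 0 ∨ z = 1 ∨ z = -1 := by omega
  rcases this with h | h | h <;> rw [h] <;> rfl

include hM hp hx hy hl hk in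
theorem cond8 {a b c : ℕ} (ha : a < 6) (hb : b < 6) (hc : c < 6) :
    con8 l k a b c (w8 m p x y a) (w8 m p x y b) (w8 m p x y c) = true := by
  have hqa := q8_mem hp hx hy a
  have hqb := q8_mem hp hx hy b
  have hqc := q8_mem hp hx hy c
  have v1 := val8 hM hp hx hy hl hk ha hb
  have v2 := val8 hM hp hx hy hl hk ha hc
  have v3 := val8 hM hp hx hy hl hk hb hc
  have h5 := c5_of hM hx hy hqa hqb hqc
  have e1 : m x (q8 p x y a) (q8 p x y b) (q8 p x y c) = pyr 5 l a b c := by
    rw [q8_lt p x y ha, q8_lt p x y hb, q8_lt p x y hc, hl]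
    rfl
  have e2 : m y (q8 p x y a) (q8 p x y b) (q8 p x y c) = pyr 5 k a b c := by
    rw [q8_lt p x y ha, q8_lt p x y hb, q8_lt p x y hc, hk]
    rfl
  rw [e1, e2, v1, v2, v3] at h5
  have r1 := rng_of (hM.alt x hx y hy _ hqa _ hqb).2.2.2
  have r2 := rng_of (hM.alt x hx y hy _ hqa _ hqc).2.2.2
  have r3 := rng_of (hM.alt x hx y hy _ hqb _ hqc).2.2.2
  rw [v1] at r1
  rw [v2] at r2
  rw [v3] at r3
  unfold con8
  rw [r1, r2, r3, h5]
  rfl

include hM hp hx hy hl hk in
theorem leaf8_of : leaf8 l k [w8 m p x y 0, w8 m p x y 1, w8 m p x y 2, w8 m p x y 3,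
    w8 m p x y 4] = true := by
  have hmem : ∀ a, w8 m p x y a ∈ R3 := by
    intro a
    refine mem3 ?_
    unfold w8
    split_ifs
    · exact (hM.alt _ hx _ hy _ (q8_mem hp hx hy 5) _ (q8_mem hp hx hy a)).2.2.2
    · rw [abs_zero]
      exact zero_le_one
  have n (a b c : ℕ) (ha : a < 6) (hb : b < 6) (hc : c < 6) :=
    cond8 hM hp hx hy hl hk ha hb hc
  have s0 : srch8 l k = true := srch8_true l k
  unfold srch8 at s0
  have s1 := imp_of (all3 (all3 s0 (hmem 0)) (hmem 1)) (n 0 1 5 (by omega) (by omega) (by omega))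
  have s2 := imp_of (imp_of (imp_of (all3 s1 (hmem 2))
    (n 0 2 5 (by omega) (by omega) (by omega))) (n 1 2 5 (by omega) (by omega) (by omega)))
    (n 0 1 2 (by omega) (by omega) (by omega))
  have s3 := imp_of (imp_of (imp_of (all3 s2 (hmem 3))
    (n 0 3 5 (by omega) (by omega) (by omega))) (n 1 3 5 (by omega) (by omega) (by omega)))
    (n 2 3 5 (by omega) (by omega) (by omega))
  have s4 := imp_of (imp_of (imp_of s3
    (n 0 1 3 (by omega) (by omega) (by omega))) (n 0 2 3 (by omega) (by omega) (by omega)))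
    (n 1 2 3 (by omega) (by omega) (by omega))
  have s5 := imp_of (imp_of (imp_of (imp_of (all3 s4 (hmem 4))
    (n 0 4 5 (by omega) (by omega) (by omega))) (n 1 4 5 (by omega) (by omega) (by omega)))
    (n 2 4 5 (by omega) (by omega) (by omega))) (n 3 4 5 (by omega) (by omega) (by omega))
  have s6 := imp_of (imp_of (imp_of s5
    (n 0 1 4 (by omega) (by omega) (by omega))) (n 0 2 4 (by omega) (by omega) (by omega)))
    (n 0 3 4 (by omega) (by omega) (by omega))
  exact imp_of (imp_of (imp_of s6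
    (n 1 2 4 (by omega) (by omega) (by omega))) (n 1 3 4 (by omega) (by omega) (by omega)))
    (n 2 3 4 (by omega) (by omega) (by omega))

end

theorem pf_PX8 (_hPBS : T_PBS) (_hPX7 : T_PX7) : T_PX8 := by
  intro X S m hM hE p hp hpy x hx y hy l k hl hk a b
  have hlf := leaf8_of hM hp hx hy hl hk
  have hr := rp8 hM hp hx hy hl hk hpy
  have hv := val8 hM hp hx hy hl hk a.2 b.2
  have hs : s8 m p x y l k = sl8 l k [w8 m p x y 0, w8 m p x y 1, w8 m p x y 2, w8 m p x y 3,
      w8 m p x y 4] :=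
    sl8_eq (s := s8 m p x y l k) (w8 m p x y) (fun a h => if_pos h) (fun a h => if_neg h)
  rw [hs] at hr
  unfold leaf8 at hlf
  rw [Bool.or_eq_true] at hlf
  rcases hlf with h1 | h1
  · -- the expected values
    unfold tru at h1
    have h2 := of_decide_eq_true h1
    have h3 : ∀ c : ℕ, c < 6 → w8 m p x y c = pyr 5 l k 5 c := by
      intro c hc
      by_cases h5 : c < 5
      · have := h2 ⟨c, h5⟩
        rw [← this]
        rcases nat_lt5 h5 with rfl | rfl | rfl | rfl | rfl <;> rfl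
      · have : c = 5 := by omega
        subst this
        have h55 : pyr 5 l k 5 5 = 0 := by
          have := pyr5_alt.s3 l k 5 5
          omega
        rw [h55]
        exact if_neg (by omega)
    rw [q8_lt p x y a.2, q8_lt p x y b.2, h3 a a.2, h3 b b.2] at hv
    have h4 : ww l k a b (pyr 5 l k 5 a) (pyr 5 l k 5 b) = pen l k a b := by
      unfold ww pen
      ring
    rw [h4] at hv
    exact hv
  · exfalso
    generalize [w8 m p x y 0, w8 m p x y 1, w8 m p x y 2, w8 m p x y 3, w8 m p x y 4] = v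
      at h1 hr
    rw [List.any_eq_true] at h1
    obtain ⟨c, -, hc⟩ := h1
    simp only [Bool.and_eq_true] at hc
    have hc2 := hc.2.2.2
    unfold ck8 at hc2
    rw [Bool.and_eq_true] at hc2
    obtain ⟨h1, h2⟩ := hc2
    by_cases h3 : c.2.2.2.1 = 1
    · rw [if_pos h3] at h2
      exact x7_false hE.nx7 hr (by norm_num) h1 h2
    · rw [if_neg h3] at h2
      by_cases h4 : c.2.2.2.1 = 2
      · rw [if_pos h4] at h2
        exact hex_false hM hr (by norm_num) h1 h2
      · rw [if_neg h4] at h2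
        by_cases h5 : c.2.2.2.1 = 3
        · rw [if_pos h5] at h2
          exact ttt_false hM hr (by norm_num) h1 h2
        · rw [if_neg h5] at h2
          exact hp_false hE.nhp hr (by norm_num) h1 h2

end Pool.Agent.H14.FN
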