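import Pool.Agent.H14.FN.PX7

/-!
# MP_6a7a6f_gt, FN, row PX8: a pentagonal pyramid and two more points (the finite search)
-/

set_option autoImplicit false
set_option maxRecDepth 100000

namespace Pool.Agent.H14.FN

open Pool.Agent.H58.FN

/-- the sign of the pair `6, 7` -/
def e67 (a b : ℕ) : ℤ := if a = 6 ∧ b = 7 then 1 else if a = 7 ∧ b = 6 then -1 else 0

theorem e67_anti (a b : ℕ) : e67 b a = -e67 a b := by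
  unfold e67
  by_cases h1 : a = 6 ∧ b = 7
  · rw [if_pos h1, if_neg (by omega), if_pos ⟨h1.2, h1.1⟩]
  · by_cases h2 : a = 7 ∧ b = 6
    · rw [if_neg h1, if_pos h2, if_pos ⟨h2.2, h2.1⟩]
      rfl
    · rw [if_neg h1, if_neg h2, if_neg (by omega), if_neg (by omega)]
      rfl

/-- the correction -/
def g8 (s : ℕ → ℤ) (a b c : ℕ) : ℤ := e67 a b * s c + e67 b c * s a + e67 c a * s b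

/-- the labels -/
def lab8 (l k i : ℕ) : ℕ := if i < 6 then i else if i = 6 then l else k

/-- the configuration of the pyramid and two more points -/
def F8 (l k : ℕ) (s : ℕ → ℤ) : ℕ → ℕ → ℕ → ℕ → ℤ := Fm (lab8 l k) (g8 s)

theorem F8_alt (l k : ℕ) (s : ℕ → ℤ) : Alt4 (F8 l k s) := by
  refine Fm_alt fun a b c => ⟨?_, ?_⟩
  · unfold g8
    rw [e67_anti a b, e67_anti c a, e67_anti b c]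
    ring
  · unfold g8
    rw [e67_anti a b, e67_anti c a, e67_anti b c]
    ring

/-- the numbers of a list -/
def sl8 (l k : ℕ) (v : List ℤ) (a : ℕ) : ℤ := if a < 5 then v.getD a 0 - pyr 5 l k 5 a else 0

/-- the value at `x, y` and two points of the pyramid -/
def ww (l k a b : ℕ) (x y : ℤ) : ℤ := pyr 5 l k a b + (y - pyr 5 l k 5 b) - (x - pyr 5 l k 5 a)

/-- small numbers -/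
def rng (x : ℤ) : Bool := (x == 0) || ((x == 1) || (x == -1))

/-- the condition for three points of the pyramid -/
def con8 (l k a b c : ℕ) (x y z : ℤ) : Bool :=
  (rng (ww l k a b x y) && (rng (ww l k a c x z) && rng (ww l k b c y z))) &&
  c5 (pyr 5 k a b c) (pyr 5 l a b c) (ww l k b c y z) (ww l k a c x z) (ww l k a b x y)

/-- the certificates -/
def cert8 : List (ℕ × ℕ × List ℤ × ℕ × List ℕ) := [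
  (0, 0, [-1,0,0,0,0], 3, [0,6,7,1,3,5]),
  (0, 0, [1,0,0,0,0], 3, [0,6,7,1,3,5]),
  (0, 1, [-1,-1,0,0,0], 2, [0,5,3,2,6,7]),
  (0, 1, [-1,0,0,0,0], 2, [0,5,3,1,6,7]),
  (0, 1, [0,-1,0,0,0], 2, [0,3,5,1,6,7]),
  (0, 1, [0,0,0,0,0], 2, [2,5,4,7,3,6]),
  (0, 2, [-1,-1,-1,0,0], 4, [0,1,2,7,3,4,6,5]),
  (0, 2, [-1,-1,0,0,0], 2, [0,5,3,2,6,7]),
  (0, 2, [-1,0,-1,0,0], 2, [0,5,3,1,6,7]),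
  (0, 2, [-1,0,0,0,0], 2, [0,5,3,1,6,7]),
  (0, 2, [0,-1,-1,0,0], 2, [0,3,5,1,6,7]),
  (0, 2, [0,-1,0,0,0], 2, [0,3,5,1,6,7]),
  (0, 2, [0,0,-1,0,0], 2, [0,3,5,2,6,7]),
  (0, 2, [0,0,0,0,0], 1, [6,2,7,3,1,5,4]),
  (0, 2, [0,0,0,0,1], 2, [1,3,6,7,4,5]),
  (0, 2, [0,0,0,1,0], 2, [1,4,7,6,3,5]),
  (0, 3, [0,-1,0,0,0], 2, [1,5,4,2,6,7]),
  (0, 3, [0,0,-1,0,0], 2, [1,4,5,2,6,7]),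
  (0, 3, [0,0,0,0,0], 1, [6,2,7,3,1,5,4]),
  (0, 3, [0,0,0,0,1], 2, [0,2,5,4,6,7]),
  (0, 3, [0,0,0,1,0], 2, [0,1,5,3,6,7]),
  (0, 3, [0,0,0,1,1], 2, [0,1,5,3,6,7]),
  (0, 3, [1,0,0,0,0], 2, [0,5,1,3,6,7]),
  (0, 3, [1,0,0,0,1], 2, [0,5,1,3,6,7]),
  (0, 3, [1,0,0,1,0], 2, [0,5,2,4,6,7]),
  (0, 3, [1,0,0,1,1], 4, [0,6,1,2,7,3,4,5]),
  (0, 4, [0,0,0,0,0], 2, [1,5,3,6,2,7]),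
  (0, 4, [0,0,0,0,1], 2, [0,2,5,4,6,7]),
  (0, 4, [1,0,0,0,0], 2, [0,5,2,3,6,7]),
  (0, 4, [1,0,0,0,1], 2, [0,5,2,3,6,7]),
  (0, 5, [-1,-1,-1,0,0], 2, [0,3,1,5,6,7]),
  (0, 5, [0,-1,-1,0,0], 2, [1,4,2,5,6,7]),
  (0, 5, [0,0,-1,0,0], 1, [1,3,7,4,2,5,6]),
  (0, 5, [0,0,0,1,0], 1, [2,0,4,5,6,3,7]),
  (0, 5, [0,0,0,1,1], 2, [1,3,5,6,7,4]),
  (0, 5, [1,0,0,1,1], 2, [0,1,3,5,6,7]),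
  (1, 0, [0,0,0,0,0], 2, [2,5,4,6,3,7]),
  (1, 0, [0,1,0,0,0], 2, [0,3,5,1,7,6]),
  (1, 0, [1,0,0,0,0], 2, [0,5,3,1,7,6]),
  (1, 0, [1,1,0,0,0], 2, [0,5,3,2,7,6]),
  (1, 1, [0,-1,0,0,0], 3, [0,3,5,1,6,7]),
  (1, 1, [0,1,0,0,0], 3, [0,3,5,1,6,7]),
  (1, 2, [0,-1,-1,0,0], 2, [0,4,5,2,6,7]),
  (1, 2, [0,-1,0,0,0], 2, [0,5,3,6,4,7]),
  (1, 2, [0,0,-1,0,0], 2, [0,4,5,2,6,7]),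
  (1, 2, [0,0,0,0,0], 2, [0,5,3,6,4,7]),
  (1, 3, [0,-1,-1,-1,0], 4, [0,6,1,2,3,7,4,5]),
  (1, 3, [0,-1,-1,0,0], 2, [0,3,6,7,1,5]),
  (1, 3, [0,-1,0,-1,0], 2, [0,2,7,6,3,5]),
  (1, 3, [0,-1,0,0,0], 2, [0,3,6,7,1,5]),
  (1, 3, [0,0,-1,-1,0], 2, [0,1,7,6,3,5]),
  (1, 3, [0,0,-1,0,0], 2, [0,3,6,7,2,5]),
  (1, 3, [0,0,0,-1,0], 2, [0,1,7,6,3,5]),
  (1, 3, [0,0,0,0,0], 1, [6,3,7,4,2,5,0]),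
  (1, 3, [0,0,0,0,1], 2, [0,2,5,4,6,7]),
  (1, 3, [1,0,0,0,0], 2, [0,5,2,4,6,7]),
  (1, 4, [0,0,-1,0,0], 2, [0,3,6,7,2,5]),
  (1, 4, [0,0,0,-1,0], 2, [0,2,7,6,3,5]),
  (1, 4, [0,0,0,0,0], 1, [6,3,7,4,2,5,0]),
  (1, 4, [0,0,0,0,1], 2, [0,2,5,4,6,7]),
  (1, 4, [0,1,0,0,0], 2, [0,3,5,1,7,6]),
  (1, 4, [0,1,0,0,1], 2, [0,2,5,4,6,7]),
  (1, 4, [1,0,0,0,0], 2, [0,5,2,4,6,7]),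
  (1, 4, [1,0,0,0,1], 2, [0,5,3,1,7,6]),
  (1, 4, [1,1,0,0,0], 2, [0,5,2,4,6,7]),
  (1, 4, [1,1,0,0,1], 4, [0,1,6,2,3,7,4,5]),
  (1, 5, [0,-1,-1,-1,0], 2, [0,1,7,6,5,3]),
  (1, 5, [0,0,-1,-1,0], 2, [0,2,7,6,5,3]),
  (1, 5, [0,0,0,-1,0], 1, [2,0,4,7,6,3,5]),
  (1, 5, [0,0,0,0,1], 1, [0,2,7,3,6,5,4]),
  (1, 5, [1,0,0,0,1], 2, [0,2,4,5,6,7]),
  (1, 5, [1,1,0,0,1], 2, [0,2,4,5,6,7]),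
  (2, 0, [0,0,0,-1,0], 2, [1,4,6,7,3,5]),
  (2, 0, [0,0,0,0,-1], 2, [1,3,7,6,4,5]),
  (2, 0, [0,0,0,0,0], 1, [6,0,4,7,1,3,5]),
  (2, 0, [0,0,1,0,0], 2, [0,3,5,2,7,6]),
  (2, 0, [0,1,0,0,0], 2, [0,3,5,1,7,6]),
  (2, 0, [0,1,1,0,0], 2, [0,3,5,1,7,6]),
  (2, 0, [1,0,0,0,0], 2, [0,5,3,1,7,6]),
  (2, 0, [1,0,1,0,0], 2, [0,5,3,1,7,6]),
  (2, 0, [1,1,0,0,0], 2, [0,5,3,2,7,6]),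
  (2, 0, [1,1,1,0,0], 4, [0,1,2,6,3,4,7,5]),
  (2, 1, [0,0,0,0,0], 2, [0,5,3,7,4,6]),
  (2, 1, [0,0,1,0,0], 2, [0,4,5,2,7,6]),
  (2, 1, [0,1,0,0,0], 2, [0,5,3,7,4,6]),
  (2, 1, [0,1,1,0,0], 2, [0,4,5,2,7,6]),
  (2, 2, [0,0,-1,0,0], 3, [0,3,5,2,6,7]),
  (2, 2, [0,0,1,0,0], 3, [0,3,5,2,6,7]),
  (2, 3, [0,0,-1,-1,0], 2, [0,1,7,6,3,5]),
  (2, 3, [0,0,-1,0,0], 2, [0,3,6,7,2,5]),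
  (2, 3, [0,0,0,-1,0], 2, [0,1,7,6,3,5]),
  (2, 3, [0,0,0,0,0], 2, [0,6,4,5,1,7]),
  (2, 4, [0,0,-1,-1,-1], 4, [0,1,6,2,3,4,7,5]),
  (2, 4, [0,0,-1,-1,0], 2, [0,4,6,7,2,5]),
  (2, 4, [0,0,-1,0,-1], 2, [0,3,6,7,2,5]),
  (2, 4, [0,0,-1,0,0], 2, [0,3,6,7,2,5]),
  (2, 4, [0,0,0,-1,-1], 2, [0,2,7,6,3,5]),
  (2, 4, [0,0,0,-1,0], 2, [0,2,7,6,3,5]),
  (2, 4, [0,0,0,0,-1], 2, [0,2,7,6,4,5]),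
  (2, 4, [0,0,0,0,0], 1, [6,0,4,7,1,3,5]),
  (2, 4, [0,1,0,0,0], 2, [0,3,5,1,7,6]),
  (2, 4, [1,0,0,0,0], 2, [0,5,3,1,7,6]),
  (2, 5, [0,0,-1,-1,-1], 2, [0,2,7,6,5,3]),
  (2, 5, [0,0,0,-1,-1], 2, [1,3,7,6,5,4]),
  (2, 5, [0,0,0,0,-1], 1, [0,2,5,3,6,7,4]),
  (2, 5, [1,0,0,0,0], 1, [1,3,7,4,6,5,0]),
  (2, 5, [1,1,0,0,0], 2, [0,3,1,7,6,5]),
  (2, 5, [1,1,1,0,0], 2, [0,3,1,7,6,5]),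
  (3, 0, [-1,0,0,-1,-1], 4, [0,7,1,2,6,3,4,5]),
  (3, 0, [-1,0,0,-1,0], 2, [0,5,2,4,7,6]),
  (3, 0, [-1,0,0,0,-1], 2, [0,5,1,3,7,6]),
  (3, 0, [-1,0,0,0,0], 2, [0,5,1,3,7,6]),
  (3, 0, [0,0,0,-1,-1], 2, [0,1,5,3,7,6]),
  (3, 0, [0,0,0,-1,0], 2, [0,1,5,3,7,6]),
  (3, 0, [0,0,0,0,-1], 2, [0,2,5,4,7,6]),
  (3, 0, [0,0,0,0,0], 1, [6,0,7,1,4,5,2]),
  (3, 0, [0,0,1,0,0], 2, [1,4,5,2,7,6]),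
  (3, 0, [0,1,0,0,0], 2, [1,5,4,2,7,6]),
  (3, 1, [-1,0,0,0,0], 2, [0,5,2,4,7,6]),
  (3, 1, [0,0,0,0,-1], 2, [0,2,5,4,7,6]),
  (3, 1, [0,0,0,0,0], 1, [6,0,7,1,4,5,2]),
  (3, 1, [0,0,0,1,0], 2, [0,1,6,7,3,5]),
  (3, 1, [0,0,1,0,0], 2, [0,3,7,6,2,5]),
  (3, 1, [0,0,1,1,0], 2, [0,1,6,7,3,5]),
  (3, 1, [0,1,0,0,0], 2, [0,3,7,6,1,5]),
  (3, 1, [0,1,0,1,0], 2, [0,2,6,7,3,5]),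
  (3, 1, [0,1,1,0,0], 2, [0,3,7,6,1,5]),
  (3, 1, [0,1,1,1,0], 4, [0,7,1,2,3,6,4,5]),
  (3, 2, [0,0,0,0,0], 2, [0,6,1,5,4,7]),
  (3, 2, [0,0,0,1,0], 2, [0,1,6,7,3,5]),
  (3, 2, [0,0,1,0,0], 2, [0,3,7,6,2,5]),
  (3, 2, [0,0,1,1,0], 2, [0,1,6,7,3,5]),
  (3, 3, [0,0,0,-1,0], 3, [0,1,5,3,6,7]),
  (3, 3, [0,0,0,1,0], 3, [0,1,5,3,6,7]),
  (3, 4, [0,0,0,-1,-1], 2, [0,1,5,3,7,6]),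
  (3, 4, [0,0,0,-1,0], 2, [0,1,5,3,7,6]),
  (3, 4, [0,0,0,0,-1], 2, [0,5,2,7,1,6]),
  (3, 4, [0,0,0,0,0], 2, [0,5,2,7,1,6]),
  (3, 5, [-1,0,0,-1,-1], 2, [0,1,3,7,6,5]),
  (3, 5, [-1,0,0,0,-1], 2, [0,2,4,7,6,5]),
  (3, 5, [-1,0,0,0,0], 1, [1,3,5,4,6,7,0]),
  (3, 5, [0,1,0,0,0], 1, [0,2,5,3,1,7,6]),
  (3, 5, [0,1,1,0,0], 2, [1,4,2,7,6,5]),
  (3, 5, [0,1,1,1,0], 2, [0,1,5,6,7,3]),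
  (4, 0, [-1,0,0,0,-1], 2, [0,5,2,3,7,6]),
  (4, 0, [-1,0,0,0,0], 2, [0,5,2,3,7,6]),
  (4, 0, [0,0,0,0,-1], 2, [0,2,5,4,7,6]),
  (4, 0, [0,0,0,0,0], 2, [1,5,3,7,2,6]),
  (4, 1, [-1,-1,0,0,-1], 4, [0,1,7,2,3,6,4,5]),
  (4, 1, [-1,-1,0,0,0], 2, [0,5,2,4,7,6]),
  (4, 1, [-1,0,0,0,-1], 2, [0,5,3,1,6,7]),
  (4, 1, [-1,0,0,0,0], 2, [0,5,2,4,7,6]),
  (4, 1, [0,-1,0,0,-1], 2, [0,2,5,4,7,6]),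
  (4, 1, [0,-1,0,0,0], 2, [0,3,5,1,6,7]),
  (4, 1, [0,0,0,0,-1], 2, [0,2,5,4,7,6]),
  (4, 1, [0,0,0,0,0], 1, [6,1,7,2,0,5,3]),
  (4, 1, [0,0,0,1,0], 2, [0,2,6,7,3,5]),
  (4, 1, [0,0,1,0,0], 2, [0,3,7,6,2,5]),
  (4, 2, [-1,0,0,0,0], 2, [0,5,3,1,6,7]),
  (4, 2, [0,-1,0,0,0], 2, [0,3,5,1,6,7]),
  (4, 2, [0,0,0,0,0], 1, [6,1,7,2,0,5,3]),
  (4, 2, [0,0,0,0,1], 2, [0,2,6,7,4,5]),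
  (4, 2, [0,0,0,1,0], 2, [0,2,6,7,3,5]),
  (4, 2, [0,0,0,1,1], 2, [0,2,6,7,3,5]),
  (4, 2, [0,0,1,0,0], 2, [0,3,7,6,2,5]),
  (4, 2, [0,0,1,0,1], 2, [0,3,7,6,2,5]),
  (4, 2, [0,0,1,1,0], 2, [0,4,7,6,2,5]),
  (4, 2, [0,0,1,1,1], 4, [0,1,7,2,3,4,6,5]),
  (4, 3, [0,0,0,0,0], 2, [0,5,2,6,1,7]),
  (4, 3, [0,0,0,0,1], 2, [0,5,2,6,1,7]),
  (4, 3, [0,0,0,1,0], 2, [0,1,5,3,6,7]),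
  (4, 3, [0,0,0,1,1], 2, [0,1,5,3,6,7]),
  (4, 4, [0,0,0,0,-1], 3, [0,2,5,4,6,7]),
  (4, 4, [0,0,0,0,1], 3, [0,2,5,4,6,7]),
  (4, 5, [-1,-1,0,0,-1], 2, [0,2,4,7,6,5]),
  (4, 5, [-1,-1,0,0,0], 2, [0,3,1,5,6,7]),
  (4, 5, [0,-1,0,0,0], 1, [0,2,7,3,1,5,6]),
  (4, 5, [0,0,1,0,0], 1, [1,3,5,4,2,7,6]),
  (4, 5, [0,0,1,1,0], 2, [0,2,5,6,7,3]),
  (4, 5, [0,0,1,1,1], 2, [0,2,5,6,7,3]),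
  (5, 0, [-1,0,0,-1,-1], 2, [0,1,3,5,7,6]),
  (5, 0, [0,0,0,-1,-1], 2, [1,3,5,7,6,4]),
  (5, 0, [0,0,0,-1,0], 1, [2,0,4,5,7,3,6]),
  (5, 0, [0,0,1,0,0], 1, [1,3,6,4,2,5,7]),
  (5, 0, [0,1,1,0,0], 2, [1,4,2,5,7,6]),
  (5, 0, [1,1,1,0,0], 2, [0,3,1,5,7,6]),
  (5, 1, [-1,-1,0,0,-1], 2, [0,2,4,5,7,6]),
  (5, 1, [-1,0,0,0,-1], 2, [0,2,4,5,7,6]),
  (5, 1, [0,0,0,0,-1], 1, [0,2,6,3,7,5,4]),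
  (5, 1, [0,0,0,1,0], 1, [2,0,4,6,7,3,5]),
  (5, 1, [0,0,1,1,0], 2, [0,2,6,7,5,3]),
  (5, 1, [0,1,1,1,0], 2, [0,1,6,7,5,3]),
  (5, 2, [-1,-1,-1,0,0], 2, [0,3,1,6,7,5]),
  (5, 2, [-1,-1,0,0,0], 2, [0,3,1,6,7,5]),
  (5, 2, [-1,0,0,0,0], 1, [1,3,6,4,7,5,0]),
  (5, 2, [0,0,0,0,1], 1, [0,2,5,3,7,6,4]),
  (5, 2, [0,0,0,1,1], 2, [1,3,6,7,5,4]),
  (5, 2, [0,0,1,1,1], 2, [0,2,6,7,5,3]),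
  (5, 3, [0,-1,-1,-1,0], 2, [0,1,5,7,6,3]),
  (5, 3, [0,-1,-1,0,0], 2, [1,4,2,6,7,5]),
  (5, 3, [0,-1,0,0,0], 1, [0,2,5,3,1,6,7]),
  (5, 3, [1,0,0,0,0], 1, [1,3,5,4,7,6,0]),
  (5, 3, [1,0,0,0,1], 2, [0,2,4,6,7,5]),
  (5, 3, [1,0,0,1,1], 2, [0,1,3,6,7,5]),
  (5, 4, [0,0,-1,-1,-1], 2, [0,2,5,7,6,3]),
  (5, 4, [0,0,-1,-1,0], 2, [0,2,5,7,6,3]),
  (5, 4, [0,0,-1,0,0], 1, [1,3,5,4,2,6,7]),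
  (5, 4, [0,1,0,0,0], 1, [0,2,6,3,1,5,7]),
  (5, 4, [1,1,0,0,0], 2, [0,3,1,5,7,6]),
  (5, 4, [1,1,0,0,1], 2, [0,2,4,6,7,5]),
  (5, 5, [-1,-1,-1,-1,-1], 3, [0,1,3,5,6,7]),
  (5, 5, [1,1,1,1,1], 3, [0,1,3,5,6,7])]

/-- the expected numbers -/
def tru (l k : ℕ) (v : List ℤ) : Bool := decide (∀ a : Fin 5, v.getD a 0 = pyr 5 l k 5 a)

/-- the check of one certificate -/
def ck8 (l k : ℕ) (v : List ℤ) (ty : ℕ) (w : List ℕ) : Bool :=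
  wf 8 w && (if ty = 1 then chkX7 (F8 l k (sl8 l k v)) w
    else if ty = 2 then chkHex (F8 l k (sl8 l k v)) w
    else if ty = 3 then chkTtt (F8 l k (sl8 l k v)) w else chkHp (F8 l k (sl8 l k v)) w)

/-- the check at a leaf -/
def leaf8 (l k : ℕ) (v : List ℤ) : Bool :=
  tru l k v || cert8.any fun c => (c.1 == l) && ((c.2.1 == k) && ((c.2.2.1 == v) &&
    ck8 l k v c.2.2.2.1 c.2.2.2.2))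

/-- the search -/
def srch8 (l k : ℕ) : Bool :=
  R3.all fun a => R3.all fun b => imp (con8 l k 0 1 5 a b 0) <|
  R3.all fun c => imp (con8 l k 0 2 5 a c 0) <| imp (con8 l k 1 2 5 b c 0) <|
  imp (con8 l k 0 1 2 a b c) <|
  R3.all fun d => imp (con8 l k 0 3 5 a d 0) <| imp (con8 l k 1 3 5 b d 0) <|
  imp (con8 l k 2 3 5 c d 0) <| imp (con8 l k 0 1 3 a b d) <| imp (con8 l k 0 2 3 a c d) <|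
  imp (con8 l k 1 2 3 b c d) <|
  R3.all fun e => imp (con8 l k 0 4 5 a e 0) <| imp (con8 l k 1 4 5 b e 0) <|
  imp (con8 l k 2 4 5 c e 0) <| imp (con8 l k 3 4 5 d e 0) <| imp (con8 l k 0 1 4 a b e) <|
  imp (con8 l k 0 2 4 a c e) <| imp (con8 l k 0 3 4 a d e) <| imp (con8 l k 1 2 4 b c e) <|
  imp (con8 l k 1 3 4 b d e) <| imp (con8 l k 2 3 4 c d e) <|
  leaf8 l k [a, b, c, d, e]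

theorem srch8_true : ∀ l k : Fin 6, srch8 l k = true := by
  decide +kernel

end Pool.Agent.H14.FN
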